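import Mathlib
import Pool.Agent.H759R2.Kad.Props

/-!
The growth theorem for arbitrary bounded derivations, from the one for symmetric derivations.
-/

open scoped ComplexOrder InnerProductSpace ComplexConjugate
open Finset

noncomputable section

namespace H759R2.Kad

universe u v

namespace H18Main

variable {A : Type u} [CStarAlgebra A]
variable {H : Type v} [NormedAddCommGroup H] [InnerProductSpace ℂ H] [CompleteSpace H]

/-- The map `a ↦ - (D (a*))*`. -/
def sharp (D : A →L[ℂ] (H →L[ℂ] H)) : A →ₗ[ℂ] (H →L[ℂ] H) where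
  toFun a := - star (D (star a))
  map_add' a b := by simp [star_add]; abel
  map_smul' c a := by simp [star_smul]

theorem sharp_apply (D : A →L[ℂ] (H →L[ℂ] H)) (a : A) : sharp D a = - star (D (star a)) := rfl

theorem sharp_bound (D : A →L[ℂ] (H →L[ℂ] H)) (a : A) : ‖sharp D a‖ ≤ ‖D‖ * ‖a‖ := by
  rw [sharp_apply, norm_neg, norm_star]
  calc ‖D (star a)‖ ≤ ‖D‖ * ‖star a‖ := D.le_opNorm _
    _ = ‖D‖ * ‖a‖ := by rw [norm_star]

/-- Symmetric part. -/
def re' (D : A →L[ℂ] (H →L[ℂ] H)) : A →ₗ[ℂ] (H →L[ℂ] H) :=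
  (2⁻¹ : ℂ) • (D.toLinearMap + sharp D)

/-- Skew part. -/
def im' (D : A →L[ℂ] (H →L[ℂ] H)) : A →ₗ[ℂ] (H →L[ℂ] H) :=
  (2⁻¹ * (-Complex.I) : ℂ) • (D.toLinearMap - sharp D)

theorem re'_apply (D : A →L[ℂ] (H →L[ℂ] H)) (a : A) :
    re' D a = (2⁻¹ : ℂ) • (D a - star (D (star a))) := by
  simp [re', sharp_apply, sub_eq_add_neg]

theorem im'_apply (D : A →L[ℂ] (H →L[ℂ] H)) (a : A) :
    im' D a = (2⁻¹ * (-Complex.I) : ℂ) • (D a + star (D (star a))) := by
  simp only [im', LinearMap.smul_apply, LinearMap.sub_apply, sharp_apply, sub_neg_eq_add]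
  rfl

theorem decomp (D : A →L[ℂ] (H →L[ℂ] H)) :
    D.toLinearMap = re' D + Complex.I • im' D := by
  ext1 a
  rw [LinearMap.add_apply, LinearMap.smul_apply, re'_apply, im'_apply, smul_smul]
  have : Complex.I * (2⁻¹ * (-Complex.I)) = (2⁻¹ : ℂ) := by
    have h := Complex.I_mul_I
    linear_combination (-(2⁻¹ : ℂ)) * h
  rw [this, ← smul_add]
  have h2 : (D a - star (D (star a))) + (D a + star (D (star a))) = (2 : ℂ) • D a := by
    rw [two_smul]; abel
  rw [h2, smul_smul]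
  norm_num

theorem re'_bound (D : A →L[ℂ] (H →L[ℂ] H)) (a : A) : ‖re' D a‖ ≤ ‖D‖ * ‖a‖ := by
  rw [re'_apply]
  have h1 : ‖D a‖ ≤ ‖D‖ * ‖a‖ := D.le_opNorm _
  have h2 : ‖star (D (star a))‖ ≤ ‖D‖ * ‖a‖ := by
    have := sharp_bound D a
    rwa [sharp_apply, norm_neg] at this
  calc ‖(2⁻¹ : ℂ) • (D a - star (D (star a)))‖ = 2⁻¹ * ‖D a - star (D (star a))‖ := by
        rw [norm_smul]; norm_num
    _ ≤ 2⁻¹ * (‖D a‖ + ‖star (D (star a))‖) := by
        gcongr; exact norm_sub_le _ _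
    _ ≤ ‖D‖ * ‖a‖ := by linarith

theorem im'_bound (D : A →L[ℂ] (H →L[ℂ] H)) (a : A) : ‖im' D a‖ ≤ ‖D‖ * ‖a‖ := by
  rw [im'_apply]
  have h1 : ‖D a‖ ≤ ‖D‖ * ‖a‖ := D.le_opNorm _
  have h2 : ‖star (D (star a))‖ ≤ ‖D‖ * ‖a‖ := by
    have := sharp_bound D a
    rwa [sharp_apply, norm_neg] at this
  calc ‖(2⁻¹ * (-Complex.I) : ℂ) • (D a + star (D (star a)))‖
      = 2⁻¹ * ‖D a + star (D (star a))‖ := by
        rw [norm_smul]; norm_num
    _ ≤ 2⁻¹ * (‖D a‖ + ‖star (D (star a))‖) := by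
        gcongr; exact norm_add_le _ _
    _ ≤ ‖D‖ * ‖a‖ := by linarith

variable {π : A →⋆ₐ[ℂ] (H →L[ℂ] H)}

theorem star_leib {D : A →L[ℂ] (H →L[ℂ] H)} (hD : ∀ a b, D (a * b) = π a * D b + D a * π b)
    (a b : A) : star (D (star (a * b))) = π a * star (D (star b)) + star (D (star a)) * π b := by
  rw [star_mul, hD, star_add, star_mul, star_mul, ← map_star π, ← map_star π, star_star, star_star]
  abel

theorem re'_isDer {D : A →L[ℂ] (H →L[ℂ] H)} (hD : ∀ a b, D (a * b) = π a * D b + D a * π b) :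
    IsDer π (re' D) where
  leib a b := by
    rw [re'_apply, re'_apply, re'_apply, star_leib hD, hD, mul_smul_comm, smul_mul_assoc,
      ← smul_add, mul_sub, sub_mul]
    congr 1
    abel
  anti a := by
    rw [re'_apply, re'_apply, star_smul, star_sub, star_star, star_star]
    have : star (2⁻¹ : ℂ) = 2⁻¹ := by simp
    rw [this, ← smul_neg]
    congr 1
    abel

theorem im'_isDer {D : A →L[ℂ] (H →L[ℂ] H)} (hD : ∀ a b, D (a * b) = π a * D b + D a * π b) :
    IsDer π (im' D) where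
  leib a b := by
    rw [im'_apply, im'_apply, im'_apply, star_leib hD, hD, mul_smul_comm, smul_mul_assoc,
      ← smul_add, mul_add, add_mul]
    congr 1
    abel
  anti a := by
    rw [im'_apply, im'_apply, star_smul, star_add, star_star, star_star]
    have : star (2⁻¹ * (-Complex.I) : ℂ) = - (2⁻¹ * (-Complex.I)) := by simp
    rw [this, neg_smul, neg_neg, add_comm]

omit [CompleteSpace H] in
theorem amp_add_lin (S T : A →ₗ[ℂ] (H →L[ℂ] H)) (c : ℂ) {ι : Type} [Fintype ι]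
    (X : CStarMatrix ι ι A) : amp (S + c • T) ι X = amp S ι X + c • amp T ι X := by
  ext v i
  simp [amp_apply, Finset.sum_add_distrib, Finset.smul_sum]

end H18Main

open H18Main in
theorem prove_main (h : St_symm.{u, v}) : St_main.{u, v} := by
  intro A _ _ _ τ hτ hdix H _ _ _ π D hD n hn X
  have h1 := h A H π (re' D) τ (re'_isDer hD) hτ hdix ‖D‖ (norm_nonneg _) (re'_bound D) n hn X
  have h2 := h A H π (im' D) τ (im'_isDer hD) hτ hdix ‖D‖ (norm_nonneg _) (im'_bound D) n hn X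
  rw [decomp D, amp_add_lin]
  calc ‖amp (re' D) (Fin n) X + Complex.I • amp (im' D) (Fin n) X‖
      ≤ ‖amp (re' D) (Fin n) X‖ + ‖Complex.I • amp (im' D) (Fin n) X‖ := norm_add_le _ _
    _ = ‖amp (re' D) (Fin n) X‖ + ‖amp (im' D) (Fin n) X‖ := by
        rw [norm_smul, Complex.norm_I, one_mul]
    _ ≤ 60000 * Real.exp (11 * √(Real.log n)) * ‖D‖ * ‖X‖ +
        60000 * Real.exp (11 * √(Real.log n)) * ‖D‖ * ‖X‖ := add_le_add h1 h2
    _ = 120000 * Real.exp (11 * √(Real.log n)) * ‖D‖ * ‖X‖ := by ring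

end H759R2.Kad
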